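import Pool.Agent.Helper18.TP.TreeThm

/-!
# Closed generic ultrafilters imply ITP and the tree property at successors of singular cardinals
-/

open Cardinal

universe u v

namespace Pool.Agent.Results.MP_5ebfb9_lc.ClosedGenericITP

open Pool.Agent.Helper18.TP

theorem result (ν : Cardinal.{u}) (hν : ν.IsStrongLimit) (hsing : ν.ord.cof < ν)
    (hG : ∀ X : Type u, Order.succ ν ≤ #X → ∀ τ < ν,
      ∃ G : GenUF.{u, v} (PK (Order.succ ν) X) ν.ord.cof τ, G.Normal) :
    TreeProperty (Order.succ ν) ∧ StrongTreeProperty (Order.succ ν) ∧ ITP (Order.succ ν) := by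
  have h1 : ITP (Order.succ ν) := itp_succ hν hsing hG
  refine ⟨?_, h1.strongTreeProperty (hν.aleph0_le.trans (Order.le_succ ν)), h1⟩
  refine treeProperty_succ hν hsing (fun τ hτ => ?_)
  obtain ⟨G, -⟩ := hG (Order.succ ν).ord.ToType (Cardinal.mk_ord_toType _).ge τ hτ
  exact ⟨G⟩

end Pool.Agent.Results.MP_5ebfb9_lc.ClosedGenericITP
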