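import Pool.Agent.Helper18.BT.D15
import Pool.Agent.Helper18.BT.D16

/-!
# The tree property at `ℵ_2` and at `ℵ_{ω_1 + 1}` together
-/

open Cardinal Ordinal

namespace Pool.Agent.Results.MP_5ebfb9_lc.TwoTreeProperties

open Pool.Agent.Helper18.TP BT

/-- Suppose that `ℵ_2` has the tree property and that there is an increasing sequence of length
`ω_1` of indestructible supercompact cardinals above `ℵ_2`.  Then there is a complete Boolean algebra
`B` such that `V^B` satisfies: `ℵ_2` and `ℵ_{ω_1 + 1}` have the tree property. -/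
theorem result (hTP : TreeProperty.{0} (ℵ_ 2))
    (κ : (ℵ_ 1 : Cardinal.{0}).ord.ToType → Cardinal.{0}) (hmono : StrictMono κ)
    (hbig : ∀ ζ, ℵ_ 2 < κ ζ) (hind : ∀ ζ, IndSupercompact (κ ζ)) :
    ∃ (B : Type) (_ : CompleteBooleanAlgebra B) (ν : Cardinal.{0}), Nontrivial B ∧
      (BAleph B 2 (ℵ_ 2) ∧ BTreeProperty B (ℵ_ 1)) ∧
      (BAleph B (ω_ 1) ν ∧ BAleph B (Order.succ (ω_ 1)) (Order.succ ν) ∧ BTreeProperty B ν) := by
  obtain ⟨h0, h1, h2, h3, h4, h5⟩ := final hTP (κ := κ) ⟨hmono, hbig, hind⟩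
  exact ⟨RO (Levy κ), inferInstance, nu κ, h0, ⟨h1, h2⟩, h3, h4, h5⟩

/-- Over the two-valued algebra the Boolean valued tree property is the tree property. -/
theorem sanity_tree {μ : Cardinal.{0}} (hμ : ℵ₀ ≤ μ) :
    BTreeProperty Prop μ ↔ TreeProperty (Order.succ μ) := bTreeProperty_prop hμ

/-- Over the two-valued algebra `BAleph` is the aleph function. -/
theorem sanity_aleph (ξ : Ordinal.{0}) (μ : Cardinal.{0}) : BAleph Prop ξ μ ↔ μ = ℵ_ ξ :=
  bAleph_prop ξ μ

end Pool.Agent.Results.MP_5ebfb9_lc.TwoTreeProperties
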